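import Mathlib
import Pool.Agent.Lib.MP_c95b3b_ag_SD.LinAx
import Pool.Agent.Lib.MP_c95b3b_ag_SD.RkAlg
import Pool.Agent.Lib.MP_c95b3b_ag_GC.Cones

set_option autoImplicit false

/-! Project ZP (MP_c95b3b_ag), block OT, module Rank: the rank of a real space of forms is at
least the dimension of its image under a type (a homomorphism `A` such that monomials with
different values of `A` are linearly independent). -/

namespace Pool.Agent.ZP.OT

open Pool.Agent.SD Pool.Agent.GC Module

/-- `AR` as a linear map -/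
noncomputable def ARl {n t : ℕ} (A : (Fin n → ℤ) →+ (Fin t → ℤ)) :
    (Fin n → ℝ) →ₗ[ℝ] (Fin t → ℝ) where
  toFun := AR A
  map_add' := by
    intro v w
    funext i
    simp only [AR, Pi.add_apply, add_mul, Finset.sum_add_distrib]
  map_smul' := by
    intro c v
    funext i
    simp only [AR, Pi.smul_apply, smul_eq_mul, RingHom.id_apply, Finset.mul_sum, mul_assoc]

theorem ARl_apply {n t : ℕ} (A : (Fin n → ℤ) →+ (Fin t → ℤ)) (v : Fin n → ℝ) :
    ARl A v = AR A v := rfl

theorem AR_rv {n t : ℕ} (A : (Fin n → ℤ) →+ (Fin t → ℤ)) (a : Fin n → ℤ) (i : Fin t) :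
    AR A (rv a) i = (A a i : ℝ) := by
  have h1 : a = ∑ l, a l • (Pi.single l 1 : Fin n → ℤ) := by
    funext j
    simp [Finset.sum_apply, Pi.single_apply]
  conv_rhs => rw [h1]
  rw [map_sum, Finset.sum_apply]
  simp only [AR, rv, map_zsmul, Pi.smul_apply, smul_eq_mul]
  push_cast
  rfl

/-- `A` separates the monomials in `x` -/
def Sep {L : Type} [Field L] [Algebra ℂ L] {n t : ℕ} (x : Fin n → L)
    (A : (Fin n → ℤ) →+ (Fin t → ℤ)) : Prop :=
  ∀ S : Finset (Fin n → ℤ), Set.InjOn A (S : Set (Fin n → ℤ)) →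
    LinearIndependent ℂ (fun a : S => mn x a.1)

section
variable {L : Type} [Field L] [Algebra ℂ L] {n t : ℕ} {x : Fin n → L}

theorem algInd_of_sep (hx : ∀ i, x i ≠ 0) {A : (Fin n → ℤ) →+ (Fin t → ℤ)} (hA : Sep x A)
    {m : ℕ} (a : Fin m → Fin n → ℤ) (ha : LinearIndependent ℝ (fun i => AR A (rv (a i)))) :
    AlgebraicIndependent ℂ (mm a x) := by
  classical
  let φ : (Fin m →₀ ℕ) → (Fin n → ℤ) := fun e => ∑ i, (e i : ℤ) • a i
  have hAφ : ∀ e j, ((A (φ e) j : ℤ) : ℝ) = ∑ i, (e i : ℝ) * AR A (rv (a i)) j := by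
    intro e j
    simp only [φ, map_sum, map_zsmul, Finset.sum_apply, Pi.smul_apply, smul_eq_mul, AR_rv]
    push_cast
    rfl
  have hinj : Function.Injective (fun e => A (φ e)) := by
    intro e e' h
    have h1 : ∑ i, ((e i : ℝ) - (e' i : ℝ)) • AR A (rv (a i)) = 0 := by
      funext j
      rw [Finset.sum_apply]
      simp only [Pi.smul_apply, smul_eq_mul, sub_mul, Finset.sum_sub_distrib, Pi.zero_apply]
      rw [← hAφ, ← hAφ]
      have h2 : A (φ e) = A (φ e') := h
      rw [h2, sub_self]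
    have h3 := Fintype.linearIndependent_iff.1 ha _ h1
    ext i
    have h4 := h3 i
    have h5 : (e i : ℝ) = (e' i : ℝ) := by linarith
    exact_mod_cast h5
  have hφ : Function.Injective φ := fun e e' h => hinj (congrArg A h)
  have hmon : ∀ e : Fin m →₀ ℕ, ∏ i, mm a x i ^ e i = mn x (φ e) := by
    intro e
    simp only [φ]
    rw [mn_sum hx]
    refine Finset.prod_congr rfl fun i _ => ?_
    rw [mn_zsmul hx, zpow_natCast]
    rfl
  rw [algebraicIndependent_iff]
  intro p hp
  rw [MvPolynomial.aeval_def, MvPolynomial.eval₂_eq'] at hp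
  have hS := hA (p.support.image φ) (by
    intro u hu v hv huv
    obtain ⟨e, -, rfl⟩ := Finset.mem_image.1 (Finset.mem_coe.1 hu)
    obtain ⟨e', -, rfl⟩ := Finset.mem_image.1 (Finset.mem_coe.1 hv)
    rw [hinj huv])
  rw [Fintype.linearIndependent_iff] at hS
  have h1 := hS (fun b => p.coeff (Function.invFun φ b.1)) (by
    rw [Finset.sum_coe_sort (p.support.image φ)
      (fun b => p.coeff (Function.invFun φ b) • mn x b), Finset.sum_image (fun _ _ _ _ h => hφ h)]
    rw [← hp]
    refine Finset.sum_congr rfl fun e _ => ?_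
    rw [Function.leftInverse_invFun hφ e, Algebra.smul_def, hmon])
  by_contra hne
  obtain ⟨e, he⟩ := MvPolynomial.ne_zero_iff.1 hne
  have h2 := h1 ⟨φ e, Finset.mem_image_of_mem φ (MvPolynomial.mem_support_iff.2 he)⟩
  simp only [Function.leftInverse_invFun hφ e] at h2
  exact he h2

theorem rkZ_ge (hx : ∀ i, x i ≠ 0) {A : (Fin n → ℤ) →+ (Fin t → ℤ)} (hA : Sep x A)
    (Λ : Submodule ℤ (Fin n → ℤ)) :
    finrank ℝ (Submodule.map (ARl A) (Submodule.span ℝ (rv '' (Λ : Set (Fin n → ℤ))))) ≤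
      rkZ x Λ := by
  classical
  rw [Submodule.map_span]
  obtain ⟨f, hf1, hf2, hf3⟩ := Submodule.exists_fun_fin_finrank_span_eq ℝ
    (ARl A '' (rv '' (Λ : Set (Fin n → ℤ))))
  generalize finrank ℝ (Submodule.span ℝ (ARl A '' (rv '' (Λ : Set (Fin n → ℤ))))) = m at f hf1 hf2 hf3 ⊢
  have h1 : ∀ i, ∃ a ∈ Λ, AR A (rv a) = f i := by
    intro i
    obtain ⟨_, ⟨a, ha, rfl⟩, h⟩ := hf1 i
    exact ⟨a, ha, h⟩
  choose a haΛ haf using h1
  have h2 : LinearIndependent ℝ (fun i => AR A (rv (a i))) := by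
    simpa only [haf] using hf3
  have h3 := om_of_algInd hx (algInd_of_sep hx hA a h2)
  have h4 : Submodule.span L (Set.range fun i => om x (rv (a i))) ≤
      Submodule.span L (om x '' (rv '' (Λ : Set (Fin n → ℤ)))) := by
    refine Submodule.span_mono ?_
    rintro _ ⟨i, rfl⟩
    exact ⟨_, ⟨_, haΛ i, rfl⟩, rfl⟩
  have h5 := finite_span_om x (rv '' (Λ : Set (Fin n → ℤ)))
  have h6 := Submodule.finrank_mono h4
  rw [finrank_span_eq_card h3, Fintype.card_fin] at h6
  exact h6

/-- the rank of a real space of forms -/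
theorem rk_ge (hx : ∀ i, x i ≠ 0) {A : (Fin n → ℤ) →+ (Fin t → ℤ)} (hA : Sep x A)
    (V : Submodule ℝ (Fin n → ℝ)) :
    finrank ℝ (Submodule.map (ARl A) V) ≤ rk x (V : Set (Fin n → ℝ)) := by
  classical
  obtain ⟨Λ, -, -, -, h⟩ := lin_ax x hx V
  set S := Submodule.span ℝ (rv '' (Λ : Set (Fin n → ℤ))) with hS
  have h1 := rkZ_ge hx hA Λ
  have h2 : finrank ℝ (Submodule.map (ARl A) (V ⊓ S)) ≤ finrank ℝ (Submodule.map (ARl A) S) :=
    Submodule.finrank_mono (Submodule.map_mono inf_le_right)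
  have h3 := LinearMap.finrank_range_add_finrank_ker ((ARl A).domRestrict V)
  have h4 := LinearMap.finrank_range_add_finrank_ker ((ARl A).domRestrict (V ⊓ S))
  rw [LinearMap.range_domRestrict] at h3 h4
  have h5 : finrank ℝ (LinearMap.ker ((ARl A).domRestrict (V ⊓ S))) ≤
      finrank ℝ (LinearMap.ker ((ARl A).domRestrict V)) := by
    let ι : LinearMap.ker ((ARl A).domRestrict (V ⊓ S)) →ₗ[ℝ]
        LinearMap.ker ((ARl A).domRestrict V) :=
      { toFun := fun w => ⟨⟨w.1.1, w.1.2.1⟩, w.2⟩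
        map_add' := fun _ _ => rfl
        map_smul' := fun _ _ => rfl }
    refine LinearMap.finrank_le_finrank_of_injective (f := ι) ?_
    intro v w h
    have h6 := congrArg (fun u : LinearMap.ker ((ARl A).domRestrict V) => (u.1.1 : Fin n → ℝ)) h
    exact Subtype.ext (Subtype.ext h6)
  have h6 : finrank ℝ (Submodule.map (ARl A) S) ≤ rkZ x Λ := h1
  omega

/-- a real vector whose form vanishes is zero if `x` lies in no proper coset -/
theorem om_real_ne (hx : ∀ i, x i ≠ 0) (hnc : ∀ a : Fin n → ℤ, om x (rv a) = 0 → a = 0)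
    (b : Fin n → ℝ) (hb : om x b = 0) : b = 0 := by
  classical
  obtain ⟨Λ, -, -, h2, h⟩ := lin_ax x hx (Submodule.span ℝ {b})
  have h3 : om x '' (Submodule.span ℝ {b} : Set (Fin n → ℝ)) = {0} := by
    ext f
    constructor
    · rintro ⟨v, hv, rfl⟩
      obtain ⟨c, rfl⟩ := Submodule.mem_span_singleton.1 hv
      rw [om_smul, hb, smul_zero]
      rfl
    · rintro rfl
      exact ⟨0, Submodule.zero_mem _, om_zero x⟩
  have h4 : Λ = ⊥ := by
    rw [eq_bot_iff]
    intro a ha
    have h5 := h2 a ha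
    rw [h3, Submodule.span_zero_singleton, Submodule.mem_bot] at h5
    rw [Submodule.mem_bot]
    exact hnc a h5
  rw [rk, h3, Submodule.span_zero_singleton, finrank_bot, h4] at h
  have h6 : rv '' ((⊥ : Submodule ℤ (Fin n → ℤ)) : Set (Fin n → ℤ)) = {0} := by
    rw [Submodule.bot_coe, Set.image_singleton, rv_zero]
  rw [h6, Submodule.span_zero_singleton, inf_bot_eq, finrank_bot] at h
  have h7 : finrank ℝ (Submodule.span ℝ {b}) = 0 := by omega
  rw [Submodule.finrank_eq_zero, Submodule.span_singleton_eq_bot] at h7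
  exact h7

/-- a family with independent forms in the image of `r` -/
theorem exists_fam (hx : ∀ i, x i ≠ 0) {d : ℕ} (hd : dm x = d) {A : (Fin n → ℤ) →+ (Fin d → ℤ)}
    (hA : Sep x A) {W : Type} [AddCommGroup W] [Module ℝ W] (r : W →ₗ[ℝ] (Fin n → ℝ))
    (hr : ∀ y : Fin d → ℝ, ∃ u, AR A (r u) = y) :
    ∃ w : Fin d → W, LinearIndependent L (fun j => om x (r (w j))) := by
  classical
  have h1 : finrank ℝ (Submodule.map (ARl A) (LinearMap.range r)) = d := by
    have h2 : Submodule.map (ARl A) (LinearMap.range r) = ⊤ := by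
      rw [eq_top_iff]
      intro y _
      obtain ⟨u, hu⟩ := hr y
      exact ⟨r u, ⟨u, rfl⟩, hu⟩
    rw [h2, finrank_top, Module.finrank_fintype_fun_eq_card, Fintype.card_fin]
  have h2 := rk_ge hx hA (LinearMap.range r)
  have h3 := rk_le_dm x (LinearMap.range r : Set (Fin n → ℝ))
  have h4 : rk x (LinearMap.range r : Set (Fin n → ℝ)) = d := by omega
  have h5 := finite_span_om x (LinearMap.range r : Set (Fin n → ℝ))
  obtain ⟨f, hf1, hf2, hf3⟩ := Submodule.exists_fun_fin_finrank_span_eq L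
    (om x '' (LinearMap.range r : Set (Fin n → ℝ)))
  have h6 : finrank L (Submodule.span L (om x '' (LinearMap.range r : Set (Fin n → ℝ)))) = d := h4
  have h7 : ∀ j : Fin d, ∃ u, om x (r u) = f (Fin.cast h6.symm j) := by
    intro j
    obtain ⟨_, ⟨u, rfl⟩, h⟩ := hf1 (Fin.cast h6.symm j)
    exact ⟨u, h⟩
  choose w hw using h7
  refine ⟨w, ?_⟩
  simp only [hw]
  exact hf3.comp _ (Fin.cast_injective _)

end

end Pool.Agent.ZP.OT
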