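import Mathlib
import Pool.Agent.Lib.MP_c95b3b_ag_SD.LinAx
import Pool.Agent.Lib.MP_c95b3b_ag_SD.Sel
import Pool.Agent.Lib.MP_c95b3b_ag_SD.Nst
import Pool.Agent.Lib.MP_c95b3b_ag_SD.ChartEx
import Pool.Agent.Lib.MP_c95b3b_ag_SD.GenPt
import Pool.Agent.Lib.MP_c95b3b_ag_ZP.OT.Rank

set_option autoImplicit false

/-! Project ZP (MP_c95b3b_ag), block OT: the off-torus lemma. -/

namespace Pool.Agent.ZP.OT

open Pool.Agent.SD Pool.Agent.GC Module Filter Topology

/-- linear algebra for the choice of the vectors -/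
theorem choose_u {W : Type} [AddCommGroup W] [Module ℝ W] {d : ℕ} (p : W →ₗ[ℝ] ℝ)
    (φ : W →ₗ[ℝ] (Fin d → ℂ)) (w : Fin d → W)
    (hsp : (Matrix.of fun j i => φ (w j) i).det ≠ 0)
    (hno : ¬ ∃ v : Fin d → ℂ, ∀ u, (p u : ℂ) = ∑ i, φ u i * v i) :
    ∃ (u0 : W) (u : Fin d → W), 0 < p u0 ∧ (∀ j, p (u j) = 0) ∧
      (Matrix.of fun j i => φ (u j) i).det ≠ 0 := by
  classical
  obtain ⟨u0, hu0⟩ : ∃ u0, 0 < p u0 := by
    by_contra hcon
    push Not at hcon
    refine hno ⟨0, fun u => ?_⟩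
    have h1 := hcon u
    have h2 := hcon (-u)
    rw [map_neg] at h2
    have h3 : p u = 0 := le_antisymm h1 (by linarith)
    rw [h3]
    simp
  have hu0' : (p u0 : ℂ) ≠ 0 := by exact_mod_cast hu0.ne'
  have htop : Submodule.span ℂ (φ '' (LinearMap.ker p : Set W)) = ⊤ := by
    by_contra hne
    obtain ⟨f, hf0, hf⟩ := Submodule.exists_le_ker_of_lt_top _ (lt_top_iff_ne_top.2 hne)
    have hfu : ∀ u, f (φ u) = (p u : ℂ) * (f (φ u0) / p u0) := by
      intro u
      have h1 : u - (p u / p u0) • u0 ∈ LinearMap.ker p := by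
        rw [LinearMap.mem_ker, map_sub, map_smul, smul_eq_mul, div_mul_cancel₀ _ hu0.ne', sub_self]
      have h2 : f (φ (u - (p u / p u0) • u0)) = 0 := hf (Submodule.subset_span ⟨_, h1, rfl⟩)
      have h3 : φ (u - (p u / p u0) • u0) = φ u - ((p u / p u0 : ℝ) : ℂ) • φ u0 := by
        rw [map_sub, map_smul]
        rfl
      rw [h3, map_sub, map_smul, smul_eq_mul, sub_eq_zero] at h2
      rw [h2]
      push_cast
      ring
    have hfsum : ∀ y : Fin d → ℂ, f y = ∑ i, y i * f (Pi.single i 1) := by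
      intro y
      conv_lhs => rw [pi_eq_sum_univ' y]
      rw [map_sum]
      refine Finset.sum_congr rfl fun l _ => ?_
      rw [map_smul, smul_eq_mul]
    by_cases hlam : f (φ u0) = 0
    · have h1 : (Matrix.of fun j i => φ (w j) i).mulVec (fun i => f (Pi.single i 1)) = 0 := by
        funext j
        have h2 := hfu (w j)
        rw [hlam, zero_div, mul_zero, hfsum] at h2
        exact h2
      have h2 := Matrix.eq_zero_of_mulVec_eq_zero hsp h1
      refine hf0 (LinearMap.ext fun y => ?_)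
      rw [hfsum, LinearMap.zero_apply]
      refine Finset.sum_eq_zero fun i _ => ?_
      have h3 : f (Pi.single i 1) = 0 := congrFun h2 i
      rw [h3, mul_zero]
    · refine hno ⟨fun i => f (Pi.single i 1) / (f (φ u0) / p u0), fun u => ?_⟩
      have h1 := hfu u
      have h2 : f (φ u0) / (p u0 : ℂ) ≠ 0 := div_ne_zero hlam hu0'
      have h3 : (p u : ℂ) = f (φ u) / (f (φ u0) / p u0) := by
        rw [h1, mul_div_cancel_right₀ _ h2]
      rw [h3, hfsum, Finset.sum_div]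
      exact Finset.sum_congr rfl fun i _ => by rw [mul_div_assoc]
  obtain ⟨f, hf1, hf2, hf3⟩ := Submodule.exists_fun_fin_finrank_span_eq ℂ
    (φ '' (LinearMap.ker p : Set W))
  have h6 : finrank ℂ (Submodule.span ℂ (φ '' (LinearMap.ker p : Set W))) = d := by
    rw [htop, finrank_top, Module.finrank_fintype_fun_eq_card, Fintype.card_fin]
  have h7 : ∀ j : Fin d, ∃ u, p u = 0 ∧ φ u = f (Fin.cast h6.symm j) := by
    intro j
    obtain ⟨u, hu, h⟩ := hf1 (Fin.cast h6.symm j)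
    exact ⟨u, hu, h⟩
  choose u hu huf using h7
  refine ⟨u0, u, hu0, hu, ?_⟩
  have h8 : LinearIndependent ℂ (fun j => φ (u j)) := by
    simp only [huf]
    exact hf3.comp _ (Fin.cast_injective _)
  have h9 := Matrix.linearIndependent_rows_iff_isUnit.1
    (show LinearIndependent ℂ (Matrix.of fun j i => φ (u j) i).row from h8)
  exact ((Matrix.isUnit_iff_isUnit_det _).1 h9).ne_zero

/-- the row of logarithmic derivatives of a real combination of the logarithms -/
noncomputable def row {d n : ℕ} (ψ : (Fin d → ℂ) → Fin n → ℂ) (t : Fin d → ℂ) (b : Fin n → ℝ) :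
    Fin d → ℂ :=
  fun i => ∑ l, (b l : ℂ) * (fderiv ℂ ψ t (Pi.single i 1) l / ψ t l)

/-- the value of a real combination of the logarithms of the absolute values -/
noncomputable def lgv {d n : ℕ} (ψ : (Fin d → ℂ) → Fin n → ℂ) (t : Fin d → ℂ) (b : Fin n → ℝ) : ℝ :=
  ∑ l, b l * Real.log ‖ψ t l‖

theorem jac_row {d n : ℕ} (b : Fin d → Fin n → ℝ) (ψ : (Fin d → ℂ) → Fin n → ℂ)
    (t : Fin d → ℂ) (j i : Fin d) : jac b ψ t j i = row ψ t (b j) i := rfl

theorem row_dot {d n : ℕ} (ψ : (Fin d → ℂ) → Fin n → ℂ) (t : Fin d → ℂ) (b : Fin n → ℝ)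
    (v : Fin d → ℂ) : ∑ i, row ψ t b i * v i = ∑ l, (b l : ℂ) * (fderiv ℂ ψ t v l / ψ t l) := by
  have hlin : fderiv ℂ ψ t v = ∑ i, v i • fderiv ℂ ψ t (Pi.single i 1) := by
    conv_lhs => rw [pi_eq_sum_univ' v]
    rw [map_sum]
    refine Finset.sum_congr rfl fun i _ => ?_
    rw [map_smul]
  simp only [row, hlin, Finset.sum_apply, Pi.smul_apply, smul_eq_mul, Finset.sum_div,
    Finset.mul_sum, Finset.sum_mul]
  rw [Finset.sum_comm]
  refine Finset.sum_congr rfl fun l _ => Finset.sum_congr rfl fun i _ => ?_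
  ring

/-- the derivative of `lgv` -/
theorem hasFDerivAt_lgv {d n : ℕ} {ψ : (Fin d → ℂ) → Fin n → ℂ} {t : Fin d → ℂ}
    (hψ : AnalyticAt ℂ ψ t) (h0 : ∀ i, ψ t i ≠ 0) (b : Fin n → ℝ) (v : Fin d → ℂ) :
    HasDerivAt (fun s : ℝ => lgv ψ (t + (s : ℂ) • v) b) (∑ i, row ψ t b i * v i).re 0 := by
  obtain ⟨ℓ, hℓ, hev⟩ := exists_log hψ h0
  have hself := hev.self_of_nhds
  have h1 : HasFDerivAt ℓ (fderiv ℂ ℓ t) t := hℓ.differentiableAt.hasFDerivAt
  have hline : HasDerivAt (fun s : ℝ => t + (s : ℂ) • v) v 0 := by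
    have h2 : HasDerivAt (fun s : ℝ => (s : ℂ)) 1 0 := Complex.ofRealCLM.hasDerivAt
    have h3 := (h2.smul_const v).const_add t
    rwa [one_smul] at h3
  have h0' : t + ((0 : ℝ) : ℂ) • v = t := by simp
  have h2 : HasDerivAt (fun s : ℝ => ℓ (t + (s : ℂ) • v)) (fderiv ℂ ℓ t v) 0 := by
    have h3 : HasFDerivAt ℓ (fderiv ℂ ℓ t) (t + ((0 : ℝ) : ℂ) • v) := by rwa [h0']
    exact (h3.restrictScalars ℝ).comp_hasDerivAt (0 : ℝ) hline
  have h3 : ∀ l, HasDerivAt (fun s : ℝ => (ℓ (t + (s : ℂ) • v) l).re)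
      ((fderiv ℂ ℓ t v l).re) 0 := by
    intro l
    have h4 := (hasDerivAt_pi.1 h2) l
    exact Complex.reCLM.hasFDerivAt.comp_hasDerivAt (0 : ℝ) h4
  have h4 : HasDerivAt (fun s : ℝ => ∑ l, b l * (ℓ (t + (s : ℂ) • v) l).re)
      (∑ l, b l * (fderiv ℂ ℓ t v l).re) 0 :=
    HasDerivAt.fun_sum fun l _ => (h3 l).const_mul (b l)
  have h5 : (∑ i, row ψ t b i * v i).re = ∑ l, b l * (fderiv ℂ ℓ t v l).re := by
    rw [row_dot, Complex.re_sum]
    refine Finset.sum_congr rfl fun l _ => ?_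
    rw [Complex.re_ofReal_mul, hself.2.2.2 v l]
  rw [h5]
  refine h4.congr_of_eventuallyEq ?_
  have hcont : Tendsto (fun s : ℝ => t + (s : ℂ) • v) (𝓝 0) (𝓝 t) := by
    have := hline.continuousAt.tendsto
    rwa [h0'] at this
  filter_upwards [hcont.eventually hev] with s hs
  exact Finset.sum_congr rfl fun l _ => by rw [hs.2.2.1 l]

/-- the row of a combination -/
theorem row_add {d n : ℕ} (ψ : (Fin d → ℂ) → Fin n → ℂ) (t : Fin d → ℂ) (b c : Fin n → ℝ) :
    row ψ t (b + c) = row ψ t b + row ψ t c := by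
  funext i
  simp only [row, Pi.add_apply, Complex.ofReal_add, add_mul, Finset.sum_add_distrib]

theorem row_smul {d n : ℕ} (ψ : (Fin d → ℂ) → Fin n → ℂ) (t : Fin d → ℂ) (r : ℝ)
    (b : Fin n → ℝ) : row ψ t (r • b) = r • row ψ t b := by
  funext i
  simp only [row, Pi.smul_apply, smul_eq_mul, Complex.ofReal_mul, Finset.mul_sum, mul_assoc,
    Complex.real_smul]

theorem lgv_add {d n : ℕ} (ψ : (Fin d → ℂ) → Fin n → ℂ) (t : Fin d → ℂ) (b c : Fin n → ℝ) :
    lgv ψ t (b + c) = lgv ψ t b + lgv ψ t c := by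
  simp only [lgv, Pi.add_apply, add_mul, Finset.sum_add_distrib]

theorem lgv_smul {d n : ℕ} (ψ : (Fin d → ℂ) → Fin n → ℂ) (t : Fin d → ℂ) (r : ℝ)
    (b : Fin n → ℝ) : lgv ψ t (r • b) = r * lgv ψ t b := by
  simp only [lgv, Pi.smul_apply, smul_eq_mul, Finset.mul_sum, mul_assoc]

/-- the rows as a linear map -/
noncomputable def rowL {d n : ℕ} (ψ : (Fin d → ℂ) → Fin n → ℂ) (t : Fin d → ℂ) :
    (Fin n → ℝ) →ₗ[ℝ] (Fin d → ℂ) where
  toFun := row ψ t
  map_add' := row_add ψ t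
  map_smul' := row_smul ψ t

noncomputable def lgvL {d n : ℕ} (ψ : (Fin d → ℂ) → Fin n → ℂ) (t : Fin d → ℂ) :
    (Fin n → ℝ) →ₗ[ℝ] ℝ where
  toFun := lgv ψ t
  map_add' := lgv_add ψ t
  map_smul' := lgv_smul ψ t

/-- the coefficients of the row of `b` in terms of the rows of a family -/
noncomputable def cf {d n : ℕ} (ψ : (Fin d → ℂ) → Fin n → ℂ) (w : Fin d → Fin n → ℝ)
    (b : Fin n → ℝ) (j : Fin d) (t : Fin d → ℂ) : ℂ :=
  (jac (Function.update w j b) ψ t).det / (jac w ψ t).det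

theorem row_eq_cf {d n : ℕ} (ψ : (Fin d → ℂ) → Fin n → ℂ) (w : Fin d → Fin n → ℝ)
    (b : Fin n → ℝ) (t : Fin d → ℂ) (h : (jac w ψ t).det ≠ 0) (i : Fin d) :
    row ψ t b i = ∑ j, cf ψ w b j t * row ψ t (w j) i := by
  have h1 := congrFun (Matrix.mulVec_cramer (jac w ψ t).transpose (row ψ t b)) i
  have h2 : ∀ j, Matrix.cramer (jac w ψ t).transpose (row ψ t b) j =
      (jac (Function.update w j b) ψ t).det := by
    intro j
    rw [Matrix.cramer_transpose_apply]
    congr 1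
    ext k l
    rw [Matrix.updateRow_apply]
    split_ifs with hk
    · subst hk
      rw [jac_row, Function.update_self]
    · rw [jac_row, jac_row, Function.update_of_ne hk]
  simp only [Matrix.mulVec, dotProduct, h2, Matrix.transpose_apply, jac_row,
    Pi.smul_apply, smul_eq_mul, Matrix.det_transpose] at h1
  rw [eq_comm, ← mul_right_inj' h, ← h1, Finset.mul_sum]
  refine Finset.sum_congr rfl fun j _ => ?_
  rw [cf]
  field_simp

/-- a real vector with vanishing rows on an open set has vanishing form -/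
theorem om_zero_of_row {L : Type} [Field L] [Algebra ℂ L] {n d : ℕ} {x : Fin n → L}
    {κ : Fin d → Fin n} {z0 : Fin n → ℂ} (hx : ∀ i, x i ≠ 0) (hd : dm x = d)
    (hκ : AlgebraicIndependent ℂ (fun j => x (κ j)))
    (halg : ∀ i, IsAlgebraic (Algebra.adjoin ℂ (Set.range fun j => x (κ j))) (x i))
    (c : Chart x κ z0) (w : Fin d → Fin n → ℝ)
    (hw : LinearIndependent L (fun j => om x (w j))) (U' : Set (Fin d → ℂ)) (hU' : IsOpen U')
    (hsub : U' ⊆ c.U) (hne : U'.Nonempty) (b : Fin n → ℝ)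
    (hb : ∀ t ∈ U', row c.ψ t b = 0) : om x b = 0 := by
  classical
  by_contra hb0
  have hli : LinearIndependent L (fun _ : Fin 1 => om x b) :=
    LinearIndependent.of_subsingleton 0 hb0
  have hS : FiniteDimensional L (Submodule.span L (Set.range fun j => om x (w j))) :=
    FiniteDimensional.span_of_finite L (Set.finite_range _)
  obtain ⟨τ, w', hτ, hw', hli'⟩ := Sel.exists_extend (fun _ : Fin 1 => om x b) hli
    (Set.range fun j => om x (w j)) hS
    (fun _ => mem_span_of_card x w hw (by rw [Fintype.card_fin, hd]) b)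
  rw [finrank_span_eq_card hw, Fintype.card_fin, Fintype.card_fin] at hτ
  choose g hg using hw'
  let e : Fin 1 ⊕ Fin τ ≃ Fin d := finSumFinEquiv.trans (finCongr hτ)
  let F : Fin d → Fin n → ℝ := fun j => Sum.elim (fun _ : Fin 1 => b) (fun i => w (g i)) (e.symm j)
  have hF : LinearIndependent L (fun j => om x (F j)) := by
    have hFe : (fun j => om x (F j)) = Sum.elim (fun _ : Fin 1 => om x b) w' ∘ e.symm := by
      funext j
      simp only [F, Function.comp]
      rcases e.symm j with i | i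
      · rfl
      · simpa using hg i
    rw [hFe]
    exact hli'.comp e.symm e.symm.injective
  obtain ⟨t, ht, hdet⟩ := jac_ne hx hκ halg c F hF U' hU' hsub hne
  refine hdet (Matrix.det_eq_zero_of_row_eq_zero (e (Sum.inl 0)) fun i => ?_)
  rw [jac_row]
  have h1 : F (e (Sum.inl 0)) = b := by
    simp only [F, Equiv.symm_apply_apply, Sum.elim_inl]
  rw [h1, hb t ht]
  rfl

/-- the points where the values of `W` come from a tangent vector -/
def Tan {W : Type} {d n : ℕ} (ψ : (Fin d → ℂ) → Fin n → ℂ) (r : W → (Fin n → ℝ)) (ζ : W → ℝ)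
    (t : Fin d → ℂ) : Prop :=
  ∃ v : Fin d → ℂ, ∀ u, ((lgv ψ t (r u) + ζ u : ℝ) : ℂ) = ∑ i, row ψ t (r u) i * v i

/-- at the points of an open set of this kind the coefficients are real -/
theorem cf_real {W : Type} {d n : ℕ} (ψ : (Fin d → ℂ) → Fin n → ℂ) (r : W → (Fin n → ℝ))
    (ζ : W → ℝ) (w : Fin d → W) (B : Set (Fin d → ℂ)) (hB : IsOpen B)
    (hψ : AnalyticOnNhd ℂ ψ B) (h0 : ∀ t ∈ B, ∀ i, ψ t i ≠ 0)
    (hdet : ∀ t ∈ B, (jac (fun j => r (w j)) ψ t).det ≠ 0) (hT : ∀ t ∈ B, Tan ψ r ζ t)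
    (u : W) (hcf : ∀ j, DifferentiableOn ℂ (cf ψ (fun j => r (w j)) (r u) j) B)
    (t : Fin d → ℂ) (ht : t ∈ B) (j : Fin d) : (cf ψ (fun j => r (w j)) (r u) j t).im = 0 := by
  set g : Fin d → (Fin d → ℂ) → ℂ := fun j => cf ψ (fun j => r (w j)) (r u) j with hg
  let P : W → (Fin d → ℂ) → ℝ := fun u t => lgv ψ t (r u) + ζ u
  let D : W → (Fin d → ℂ) → (Fin d → ℂ) → ℂ := fun u t v => ∑ i, row ψ t (r u) i * v i
  have hD : ∀ s ∈ B, ∀ v, D u s v = ∑ j, g j s * D (w j) s v := by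
    intro s hs v
    simp only [D]
    rw [Finset.sum_congr rfl fun i _ => by rw [row_eq_cf ψ (fun j => r (w j)) (r u) s (hdet s hs) i]]
    simp only [Finset.sum_mul, Finset.mul_sum]
    rw [Finset.sum_comm]
    exact Finset.sum_congr rfl fun j _ => Finset.sum_congr rfl fun i _ => by rw [mul_assoc]
  have hP : ∀ s ∈ B, (P u s : ℂ) = ∑ j, g j s * (P (w j) s : ℂ) := by
    intro s hs
    obtain ⟨v, hv⟩ := hT s hs
    have h1 : (P u s : ℂ) = D u s v := hv u
    rw [h1, hD s hs v]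
    refine Finset.sum_congr rfl fun j _ => ?_
    have h2 : (P (w j) s : ℂ) = D (w j) s v := hv (w j)
    rw [h2]
  have hder : ∀ v : Fin d → ℂ, (((D u t v).re : ℝ) : ℂ) =
      ∑ j, (fderiv ℂ (g j) t v * (P (w j) t : ℂ) + g j t * (((D (w j) t v).re : ℝ) : ℂ)) := by
    intro v
    have hline : HasDerivAt (fun s : ℝ => t + (s : ℂ) • v) v 0 := by
      have h2 : HasDerivAt (fun s : ℝ => (s : ℂ)) 1 0 := Complex.ofRealCLM.hasDerivAt
      have h3 := (h2.smul_const v).const_add t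
      rwa [one_smul] at h3
    have h0' : t + ((0 : ℝ) : ℂ) • v = t := by simp
    have hPd : ∀ u', HasDerivAt (fun s : ℝ => ((P u' (t + (s : ℂ) • v) : ℝ) : ℂ))
        (((D u' t v).re : ℝ) : ℂ) 0 := by
      intro u'
      have h1 := (hasFDerivAt_lgv (hψ t ht) (h0 t ht) (r u') v).add_const (ζ u')
      exact h1.ofReal_comp
    have hgd : ∀ j, HasDerivAt (fun s : ℝ => g j (t + (s : ℂ) • v)) (fderiv ℂ (g j) t v) 0 := by
      intro j
      have h1 : HasFDerivAt (g j) (fderiv ℂ (g j) t) t :=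
        ((hcf j).differentiableAt (hB.mem_nhds ht)).hasFDerivAt
      have h3 : HasFDerivAt (g j) (fderiv ℂ (g j) t) (t + ((0 : ℝ) : ℂ) • v) := by rwa [h0']
      exact (h3.restrictScalars ℝ).comp_hasDerivAt (0 : ℝ) hline
    have hR : HasDerivAt (fun s : ℝ => ∑ j, g j (t + (s : ℂ) • v) *
        ((P (w j) (t + (s : ℂ) • v) : ℝ) : ℂ))
        (∑ j, (fderiv ℂ (g j) t v * (P (w j) t : ℂ) + g j t * (((D (w j) t v).re : ℝ) : ℂ))) 0 := by
      refine HasDerivAt.fun_sum fun j _ => ?_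
      have h1 := (hgd j).mul (hPd (w j))
      simp only [h0'] at h1
      exact h1
    have hcont : Tendsto (fun s : ℝ => t + (s : ℂ) • v) (𝓝 0) (𝓝 t) := by
      have := hline.continuousAt.tendsto
      rwa [h0'] at this
    have hev : (fun s : ℝ => ((P u (t + (s : ℂ) • v) : ℝ) : ℂ)) =ᶠ[𝓝 0]
        fun s : ℝ => ∑ j, g j (t + (s : ℂ) • v) * ((P (w j) (t + (s : ℂ) • v) : ℝ) : ℂ) := by
      filter_upwards [hcont.eventually (hB.mem_nhds ht)] with s hs
      exact hP _ hs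
    exact (hPd u).unique (hR.congr_of_eventuallyEq hev)
  -- the conjugate relation
  have hconj : ∀ v : Fin d → ℂ, ∑ j, (starRingEnd ℂ (g j t) - g j t) *
      starRingEnd ℂ (D (w j) t v) = 0 := by
    intro v
    have h1 := hder v
    have h2 := hder (Complex.I • v)
    have hI : ∀ u', D u' t (Complex.I • v) = Complex.I * D u' t v := by
      intro u'
      simp only [D, Pi.smul_apply, smul_eq_mul, Finset.mul_sum]
      exact Finset.sum_congr rfl fun i _ => by ring
    have hIre : ∀ u', (((D u' t (Complex.I • v)).re : ℝ) : ℂ) = -(((D u' t v).im : ℝ) : ℂ) := by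
      intro u'
      rw [hI, Complex.I_mul_re]
      push_cast
      ring
    simp only [hIre, map_smul, smul_eq_mul] at h2
    have h3 : ∀ z : ℂ, starRingEnd ℂ z = ((z.re : ℝ) : ℂ) + Complex.I * (-((z.im : ℝ) : ℂ)) := by
      intro z
      apply Complex.ext <;> simp
    have h4 : starRingEnd ℂ (D u t v) = ∑ j, g j t * starRingEnd ℂ (D (w j) t v) := by
      rw [h3, h1, h2, Finset.mul_sum, ← Finset.sum_add_distrib]
      refine Finset.sum_congr rfl fun j _ => ?_
      rw [h3]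
      linear_combination (fderiv ℂ (g j) t v) * (P (w j) t : ℂ) * (Complex.I_mul_I)
    have h5 : starRingEnd ℂ (D u t v) =
        ∑ j, starRingEnd ℂ (g j t) * starRingEnd ℂ (D (w j) t v) := by
      rw [hD t ht v, map_sum]
      exact Finset.sum_congr rfl fun j _ => map_mul _ _ _
    simp only [sub_mul, Finset.sum_sub_distrib]
    rw [← h5, ← h4, sub_self]
  have hzero : (Matrix.transpose (jac (fun j => r (w j)) ψ t)).mulVec
      (fun j => g j t - starRingEnd ℂ (g j t)) = 0 := by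
    funext i
    have h1 := congrArg (starRingEnd ℂ) (hconj (Pi.single i 1))
    rw [map_sum, map_zero] at h1
    simp only [map_mul, map_sub, Complex.conj_conj] at h1
    rw [Pi.zero_apply, ← h1]
    simp only [Matrix.mulVec, dotProduct, Matrix.transpose_apply]
    refine Finset.sum_congr rfl fun k _ => ?_
    have h2 : D (w k) t (Pi.single i 1) = jac (fun j => r (w j)) ψ t k i := by
      simp only [D]
      rw [Finset.sum_eq_single i, Pi.single_eq_same, mul_one]
      · rfl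
      · intro l _ hl
        rw [Pi.single_eq_of_ne hl, mul_zero]
      · intro h
        exact absurd (Finset.mem_univ _) h
    rw [h2]
    ring
  have h6 := Matrix.eq_zero_of_mulVec_eq_zero (by rw [Matrix.det_transpose]; exact hdet t ht) hzero
  have h7 : g j t - starRingEnd ℂ (g j t) = 0 := congrFun h6 j
  have h8 : starRingEnd ℂ (g j t) = g j t := (sub_eq_zero.1 h7).symm
  exact Complex.conj_eq_iff_im.1 h8

/-- holomorphic functions with real values on a ball are constant -/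
theorem const_of_real {d : ℕ} (g : (Fin d → ℂ) → ℂ) (B : Set (Fin d → ℂ)) (hB : IsOpen B)
    (hpc : IsPreconnected B) (hne : B.Nonempty) (hg : AnalyticOnNhd ℂ g B)
    (him : ∀ t ∈ B, (g t).im = 0) : ∃ a : ℝ, ∀ t ∈ B, g t = a := by
  rcases hg.is_constant_or_isOpen hpc with ⟨w, hw⟩ | h
  · obtain ⟨t0, ht0⟩ := hne
    refine ⟨w.re, fun t ht => ?_⟩
    rw [hw t ht]
    have h1 := him t0 ht0
    rw [hw t0 ht0] at h1
    exact Complex.ext rfl (by rw [h1, Complex.ofReal_im])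
  · exfalso
    obtain ⟨t0, ht0⟩ := hne
    have h1 := h B le_rfl hB
    have h2 : g '' B ∈ 𝓝 (g t0) := h1.mem_nhds ⟨t0, ht0, rfl⟩
    obtain ⟨ε, hε, hball⟩ := Metric.mem_nhds_iff.1 h2
    have h3 : g t0 + (ε / 2 : ℝ) * Complex.I ∈ Metric.ball (g t0) ε := by
      rw [Metric.mem_ball, dist_eq_norm, add_sub_cancel_left, norm_mul, Complex.norm_I, mul_one,
        Complex.norm_real, Real.norm_of_nonneg (by linarith)]
      linarith
    obtain ⟨t, ht, hgt⟩ := hball h3
    have h4 := him t ht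
    rw [hgt, Complex.add_im, him t0 ht0, Complex.im_ofReal_mul, Complex.I_im] at h4
    linarith

/-- THE OFF-TORUS LEMMA. -/
theorem off_torus {L : Type} [Field L] [Algebra ℂ L] {n d : ℕ} {x : Fin n → L}
    (hx : ∀ i, x i ≠ 0) (hd : dm x = d) (hnc : ∀ a : Fin n → ℤ, om x (rv a) = 0 → a = 0)
    {W : Type} [AddCommGroup W] [Module ℝ W] (r : W →ₗ[ℝ] (Fin n → ℝ)) (ζ : W →ₗ[ℝ] ℝ)
    (hrk : ∃ w : Fin d → W, LinearIndependent L (fun j => om x (r (w j))))
    (hdim : d + 1 ≤ finrank ℝ (LinearMap.range r)) :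
    ∃ (κ : Fin d → Fin n) (z0 : Fin n → ℂ) (c : Chart x κ z0) (t : Fin d → ℂ) (u0 : W)
      (u : Fin d → W), t ∈ c.U ∧ 0 < ∑ l, r u0 l * Real.log ‖c.ψ t l‖ + ζ u0 ∧
      (∀ j, ∑ l, r (u j) l * Real.log ‖c.ψ t l‖ + ζ (u j) = 0) ∧
      (jac (fun j => r (u j)) c.ψ t).det ≠ 0 := by
  classical
  subst hd
  obtain ⟨κ, -, hκ, halg⟩ := exists_kappa hx
  obtain ⟨F0, hF0, hch⟩ := exists_chart x hx κ hκ halg
  obtain ⟨z0, hz0, hF0z⟩ := exists_pt x hx F0 hF0
  obtain ⟨c⟩ := hch z0 hz0 hF0z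
  obtain ⟨w, hw⟩ := hrk
  obtain ⟨t1, ht1, hdet1⟩ := jac_ne hx hκ halg c (fun j => r (w j)) hw c.U c.isOpen le_rfl
    ⟨c.t0, c.t0_mem⟩
  have hopen : IsOpen (c.U ∩ (fun t => (jac (fun j => r (w j)) c.ψ t).det) ⁻¹' {0}ᶜ) :=
    (jac_an c (fun j => r (w j))).continuousOn.isOpen_inter_preimage c.isOpen
      isOpen_compl_singleton
  obtain ⟨ρ, hρ, hball⟩ := Metric.isOpen_iff.1 hopen t1 ⟨ht1, hdet1⟩
  set B := Metric.ball t1 ρ with hB
  have hBU : B ⊆ c.U := fun t ht => (hball ht).1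
  have hBdet : ∀ t ∈ B, (jac (fun j => r (w j)) c.ψ t).det ≠ 0 := fun t ht => (hball ht).2
  have hBne : B.Nonempty := ⟨t1, Metric.mem_ball_self hρ⟩
  have h0 : ∀ t ∈ B, ∀ i, c.ψ t i ≠ 0 := fun t ht => (c.on t (hBU ht)).1
  by_contra hcon
  -- tangent vectors at all points of the ball
  have hT : ∀ t ∈ B, Tan c.ψ r ζ t := by
    intro t ht
    by_contra hno
    obtain ⟨u0, u, hu0, hu, hdet⟩ := choose_u ((lgvL c.ψ t).comp r + ζ) ((rowL c.ψ t).comp r) w
      (hBdet t ht) (by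
        rintro ⟨v, hv⟩
        exact hno ⟨v, hv⟩)
    exact hcon ⟨κ, z0, c, t, u0, u, hBU ht, hu0, hu, hdet⟩
  have hcfan : ∀ b j, AnalyticOnNhd ℂ (cf c.ψ (fun j => r (w j)) b j) B := by
    intro b j t ht
    exact (jac_an c _ t (hBU ht)).div (jac_an c _ t (hBU ht)) (hBdet t ht)
  have hreal : ∀ u j, ∃ a : ℝ, ∀ t ∈ B, cf c.ψ (fun j => r (w j)) (r u) j t = a := by
    intro u j
    refine const_of_real _ B Metric.isOpen_ball (convex_ball t1 ρ).isPreconnected hBne
      (hcfan _ _) fun t ht => ?_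
    exact cf_real c.ψ r ζ w B Metric.isOpen_ball (fun t ht => c.an t (hBU ht)) h0 hBdet hT u
      (fun j => (hcfan _ j).differentiableOn) t ht j
  choose a ha using hreal
  have hspan : LinearMap.range r ≤ Submodule.span ℝ (Set.range fun j => r (w j)) := by
    rintro _ ⟨u, rfl⟩
    have h1 : om x (r u - ∑ j, a u j • r (w j)) = 0 := by
      refine om_zero_of_row hx rfl hκ halg c (fun j => r (w j)) hw B Metric.isOpen_ball hBU hBne _
        fun t ht => ?_
      funext i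
      have h2 := row_eq_cf c.ψ (fun j => r (w j)) (r u) t (hBdet t ht) i
      have h3 : row c.ψ t (r u - ∑ j, a u j • r (w j)) =
          row c.ψ t (r u) - ∑ j, a u j • row c.ψ t (r (w j)) := by
        show rowL c.ψ t (r u - ∑ j, a u j • r (w j)) = _
        rw [map_sub, map_sum]
        simp only [map_smul]
        rfl
      rw [h3, Pi.sub_apply, Finset.sum_apply, h2, Pi.zero_apply, sub_eq_zero]
      refine Finset.sum_congr rfl fun j _ => ?_
      rw [ha u j t ht, Pi.smul_apply, Complex.real_smul]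
    have h2 := om_real_ne hx hnc _ h1
    rw [sub_eq_zero] at h2
    rw [h2]
    exact Submodule.sum_mem _ fun j _ => Submodule.smul_mem _ _
      (Submodule.subset_span ⟨j, rfl⟩)
  have h1 := Submodule.finrank_mono hspan
  have h2 := finrank_range_le_card (R := ℝ) (fun j => r (w j))
  rw [Fintype.card_fin] at h2
  have h3 : finrank ℝ (Submodule.span ℝ (Set.range fun j => r (w j))) ≤ dm x := h2
  omega

end Pool.Agent.ZP.OT
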