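import Mathlib
import Pool.Agent.Lib.MP_c95b3b_ag_SD.Map
import Pool.Agent.Lib.MP_c95b3b_ag_ZP.Defs

set_option autoImplicit false

/-! Project ZP (MP_c95b3b_ag), Glue: linear algebra for the coordinates of the bounded block. -/

namespace Pool.Agent.ZP.Glue

open Module Pool.Agent.SD

variable {L : Type} [Field L] [Algebra ℂ L] {n m q : ℕ} {blk : Fin n → Fin (q + 1)}

/-- extension by zero of a vector of the block `0` -/
def ext {α : Type} [Zero α] (e : Fin m ≃ B0 blk) (b : Fin m → α) : Fin n → α :=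
  fun i => if h : blk i = 0 then b (e.symm ⟨i, h⟩) else 0

theorem ext_apply {α : Type} [Zero α] (e : Fin m ≃ B0 blk) (b : Fin m → α) (l : Fin m) :
    ext e b (e l) = b l := by
  unfold ext
  rw [dif_pos (e l).2]
  simp

theorem ext_eq_zero {α : Type} [Zero α] (e : Fin m ≃ B0 blk) (b : Fin m → α) (i : Fin n)
    (h : blk i ≠ 0) : ext e b i = 0 := by
  unfold ext
  rw [dif_neg h]

theorem sum_B0 {M : Type} [AddCommMonoid M] (e : Fin m ≃ B0 blk) (f : Fin n → M)
    (hf : ∀ i, blk i ≠ 0 → f i = 0) : ∑ i, f i = ∑ l, f (e l) := by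
  classical
  have h1 : ∑ i, f i = ∑ i : Fin n with blk i = 0, f i := by
    rw [Finset.sum_filter]
    refine Finset.sum_congr rfl fun i _ => ?_
    split_ifs with h
    · rfl
    · exact hf i h
  rw [h1, ← Equiv.sum_comp e.symm]
  simp only [Equiv.apply_symm_apply]
  exact Finset.sum_subtype (Finset.univ.filter fun i => blk i = 0) (p := fun i => blk i = 0)
    (fun i => by simp) f

theorem om_ext (x : Fin n → L) (e : Fin m ≃ B0 blk) (b : Fin m → ℝ) :
    om x (ext e b) = om (fun l => x (e l)) b := by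
  refine LinearMap.ext fun D => ?_
  rw [om_apply, om_apply, sum_B0 e]
  · refine Finset.sum_congr rfl fun l _ => ?_
    rw [ext_apply]
  · intro i hi
    rw [ext_eq_zero e b i hi]
    simp

theorem ext_res (e : Fin m ≃ B0 blk) {α : Type} [Zero α] (b : Fin n → α) :
    ext e (fun l => b (e l)) = pj blk 0 b := by
  funext i
  unfold ext pj
  split_ifs with h
  · simp
  · rfl

theorem om_res (x : Fin n → L) (e : Fin m ≃ B0 blk) (b : Fin n → ℝ) :
    om (fun l => x (e l)) (fun l => b (e l)) = om x (pj blk 0 b) := by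
  rw [← ext_res e, om_ext]

theorem rv_ext (e : Fin m ≃ B0 blk) (a : Fin m → ℤ) : rv (ext e a) = ext e (rv a) := by
  funext i
  by_cases h : blk i = 0
  · simp only [ext, rv, dif_pos h]
  · simp only [ext, rv, dif_neg h, Int.cast_zero]

theorem ext_mem (e : Fin m ≃ B0 blk) (a : Fin m → ℤ) : ext e a ∈ blL blk 0 := by
  intro i hi
  exact ext_eq_zero e a i hi

/-- the block `0` lies in no coset -/
theorem no_coset (x : Fin n → L) (e : Fin m ≃ B0 blk)
    (h : ∀ a ∈ blL blk 0, a ≠ 0 → om x (rv a) ≠ 0) (a : Fin m → ℤ) (ha : a ≠ 0) :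
    om (fun l => x (e l)) (rv a) ≠ 0 := by
  rw [← om_ext, ← rv_ext]
  refine h _ (ext_mem e a) fun h0 => ha ?_
  funext l
  rw [← ext_apply e a l, h0]
  rfl

/-- the dimension of the block `0` -/
theorem dm_block (x : Fin n → L) (e : Fin m ≃ B0 blk) :
    dm (fun l => x (e l)) = rkZ x (blL blk 0) := by
  have h0 : Submodule.span L (om (fun l => x (e l)) '' Set.univ) =
      Submodule.span L (om x '' (rv '' (blL blk 0 : Set (Fin n → ℤ)))) := ?_
  · exact congrArg (fun M : Submodule L (Derivation ℂ L L →ₗ[L] L) => finrank L M) h0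
  apply le_antisymm
  · rw [Submodule.span_le]
    rintro _ ⟨b, _, rfl⟩
    have h1 : b = ∑ l, b l • (Pi.single l (1 : ℝ) : Fin m → ℝ) := by
      ext k
      simp [Finset.sum_apply, Pi.single_apply]
    have h2 : om (fun l => x (e l)) b = ∑ l, algebraMap ℂ L ((b l : ℝ) : ℂ) •
        om (fun l => x (e l)) (Pi.single l (1 : ℝ)) := by
      refine LinearMap.ext fun D => ?_
      rw [om_apply, LinearMap.sum_apply]
      refine Finset.sum_congr rfl fun l _ => ?_
      rw [LinearMap.smul_apply, om_apply, smul_eq_mul]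
      congr 1
      rw [Finset.sum_eq_single l]
      · simp
      · intro k _ hk
        rw [Pi.single_eq_of_ne hk]
        simp
      · intro h
        exact absurd (Finset.mem_univ l) h
    rw [SetLike.mem_coe, h2]
    refine Submodule.sum_mem _ fun l _ => Submodule.smul_mem _ _ (Submodule.subset_span ?_)
    refine ⟨rv (ext e (Pi.single l 1)), ⟨_, ext_mem e _, rfl⟩, ?_⟩
    rw [rv_ext, rv_single, om_ext]
  · refine Submodule.span_mono ?_
    rintro _ ⟨_, ⟨a, ha, rfl⟩, rfl⟩
    refine ⟨fun l => rv a (e l), trivial, ?_⟩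
    rw [om_res]
    congr 1
    funext i
    unfold pj
    split_ifs with h
    · rfl
    · rw [rv, ha i h, Int.cast_zero]

/-- the exponents on the block `0`, together with the constants -/
noncomputable def prm (e : Fin m ≃ B0 blk) (μ : Fin n → ℝ) :
    (Fin n → ℝ) →ₗ[ℝ] ((Fin m → ℝ) × ℝ) where
  toFun b := (fun l => b (e l), ∑ i, (b - pj blk 0 b) i * μ i)
  map_add' b b' := by
    refine Prod.ext rfl ?_
    show ∑ i, (b + b' - pj blk 0 (b + b')) i * μ i =
      ∑ i, (b - pj blk 0 b) i * μ i + ∑ i, (b' - pj blk 0 b') i * μ i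
    rw [← Finset.sum_add_distrib]
    refine Finset.sum_congr rfl fun i _ => ?_
    simp only [pj, Pi.add_apply, Pi.sub_apply]
    split_ifs <;> ring
  map_smul' r b := by
    refine Prod.ext rfl ?_
    show ∑ i, (r • b - pj blk 0 (r • b)) i * μ i = r * ∑ i, (b - pj blk 0 b) i * μ i
    rw [Finset.mul_sum]
    refine Finset.sum_congr rfl fun i _ => ?_
    simp only [pj, Pi.smul_apply, Pi.sub_apply, smul_eq_mul]
    split_ifs <;> ring

theorem prm_fst (e : Fin m ≃ B0 blk) (μ : Fin n → ℝ) (b : Fin n → ℝ) :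
    (prm e μ b).1 = fun l => b (e l) := rfl

theorem prm_snd (e : Fin m ≃ B0 blk) (μ : Fin n → ℝ) (b : Fin n → ℝ) :
    (prm e μ b).2 = ∑ i, (b - pj blk 0 b) i * μ i := rfl

theorem rk_prm (x : Fin n → L) (e : Fin m ≃ B0 blk) (μ : Fin n → ℝ)
    (W : Submodule ℝ (Fin n → ℝ)) :
    rk (fun l => x (e l)) (Prod.fst '' ((W.map (prm e μ) : Submodule ℝ _) :
      Set ((Fin m → ℝ) × ℝ))) = rk x (pj blk 0 '' (W : Set (Fin n → ℝ))) := by
  have h0 : om (fun l => x (e l)) '' (Prod.fst '' ((W.map (prm e μ) : Submodule ℝ _) :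
      Set ((Fin m → ℝ) × ℝ))) = om x '' (pj blk 0 '' (W : Set (Fin n → ℝ))) := by
    rw [Submodule.map_coe, Set.image_image, Set.image_image, Set.image_image]
    refine Set.image_congr fun b _ => ?_
    rw [prm_fst, om_res]
  unfold rk
  rw [h0]

theorem finrank_prm (e : Fin m ≃ B0 blk) (μ : Fin n → ℝ) (W : Submodule ℝ (Fin n → ℝ)) :
    finrank ℝ ((W.map (prm e μ)).map (LinearMap.fst ℝ (Fin m → ℝ) ℝ)) =
      finrank ℝ (Submodule.span ℝ (pj blk 0 '' (W : Set (Fin n → ℝ)))) := by
  let E : (Fin m → ℝ) →ₗ[ℝ] (Fin n → ℝ) :=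
    { toFun := ext e
      map_add' := fun b b' => by
        funext i
        simp only [ext, Pi.add_apply]
        split_ifs <;> simp
      map_smul' := fun r b => by
        funext i
        simp only [ext, Pi.smul_apply, RingHom.id_apply]
        split_ifs <;> simp }
  have hE : Function.Injective E := by
    intro b b' h
    funext l
    rw [← ext_apply e b l, ← ext_apply e b' l]
    exact congrFun h (e l)
  have h1 : Submodule.span ℝ (pj blk 0 '' (W : Set (Fin n → ℝ))) =
      ((W.map (prm e μ)).map (LinearMap.fst ℝ (Fin m → ℝ) ℝ)).map E := by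
    have h2 : pj blk 0 '' (W : Set (Fin n → ℝ)) =
        (((W.map (prm e μ)).map (LinearMap.fst ℝ (Fin m → ℝ) ℝ)).map E :
          Submodule ℝ (Fin n → ℝ)) := by
      rw [Submodule.map_coe, Submodule.map_coe, Submodule.map_coe, Set.image_image,
        Set.image_image]
      refine Set.image_congr fun b _ => ?_
      exact (ext_res e b).symm
    rw [h2, Submodule.span_eq]
  rw [h1]
  exact LinearEquiv.finrank_eq (Submodule.equivMapOfInjective E hE _)

end Pool.Agent.ZP.Glue
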