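import Mathlib
import Pool.Agent.Lib.MP_c95b3b_ag_SD.Map
import Pool.Agent.Lib.MP_c95b3b_ag_ZP.Defs

set_option autoImplicit false

/-! Project ZP (MP_c95b3b_ag), Glue: the leading coefficients as characters of the kernel of a
type. -/

namespace Pool.Agent.ZP.Glue

open Module Filter Topology Pool.Agent.SD

variable {n t q : ℕ}

theorem A_apply (A : (Fin n → ℤ) →+ (Fin t → ℤ)) (a : Fin n → ℤ) (j : Fin t) :
    A a j = ∑ l, a l * A (Pi.single l 1) j := by
  have h : a = ∑ l, a l • (Pi.single l 1 : Fin n → ℤ) := by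
    funext j
    simp [Finset.sum_apply, Pi.single_apply]
  conv_lhs => rw [h]
  rw [map_sum, Finset.sum_apply]
  refine Finset.sum_congr rfl fun l _ => ?_
  rw [map_zsmul, Pi.smul_apply, smul_eq_mul]

/-- generators of a graded kernel, supported in one block each -/
theorem exists_ker (blk : Fin n → Fin (q + 1)) {A : (Fin n → ℤ) →+ (Fin t → ℤ)}
    (hA : Function.Surjective A) (hgr : ∀ a, A a = 0 → ∀ j, A (pj blk j a) = 0) :
    ∃ k : Fin n → Fin n → ℤ, (∀ i, A (k i) = 0) ∧ (∀ i l, blk l ≠ blk i → k i l = 0) ∧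
      ∀ a, A a = 0 → a = ∑ i, a i • k i := by
  choose b hb using fun i : Fin t => hA (Pi.single i 1)
  set w : Fin n → Fin n → ℤ := fun i => Pi.single i 1 - ∑ j, A (Pi.single i 1) j • b j with hw
  have hAw : ∀ i, A (w i) = 0 := by
    intro i
    rw [hw, map_sub, map_sum, sub_eq_zero]
    funext j
    rw [Finset.sum_apply, Finset.sum_eq_single j]
    · rw [map_zsmul, hb, Pi.smul_apply, Pi.single_eq_same, smul_eq_mul, mul_one]
    · intro i' _ hi
      rw [map_zsmul, hb, Pi.smul_apply, Pi.single_eq_of_ne hi.symm, smul_zero]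
    · intro h
      exact absurd (Finset.mem_univ j) h
  have hsum : ∀ a, A a = 0 → ∑ i, a i • w i = a := by
    intro a ha
    have h1 : ∀ j, ∑ i, a i * A (Pi.single i 1) j = 0 := by
      intro j
      rw [← A_apply, ha]
      rfl
    funext l
    rw [Finset.sum_apply]
    have h2 : ∀ i, (a i • w i) l = a i * (Pi.single i (1 : ℤ) : Fin n → ℤ) l -
        ∑ j, (a i * A (Pi.single i 1) j) * b j l := by
      intro i
      have h3 : w i l = (Pi.single i (1 : ℤ) : Fin n → ℤ) l -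
          (∑ j, A (Pi.single i 1) j • b j) l := rfl
      rw [Pi.smul_apply, h3, smul_eq_mul, mul_sub, Finset.sum_apply, Finset.mul_sum]
      congr 1
      refine Finset.sum_congr rfl fun j _ => ?_
      rw [Pi.smul_apply, smul_eq_mul, mul_assoc]
    rw [Finset.sum_congr rfl fun i _ => h2 i, Finset.sum_sub_distrib, Finset.sum_comm]
    have h3 : ∀ j, ∑ i, (a i * A (Pi.single i 1) j) * b j l = 0 := by
      intro j
      rw [← Finset.sum_mul, h1, zero_mul]
    rw [Finset.sum_congr rfl fun j _ => h3 j, Finset.sum_const_zero, sub_zero,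
      Finset.sum_eq_single l]
    · rw [Pi.single_eq_same, mul_one]
    · intro i _ hi
      rw [Pi.single_eq_of_ne hi.symm, mul_zero]
    · intro h
      exact absurd (Finset.mem_univ l) h
  refine ⟨fun i => pj blk (blk i) (w i), fun i => hgr _ (hAw i) _, fun i l hl => ?_, ?_⟩
  · simp only [pj, if_neg hl]
  · intro a ha
    funext l
    have h1 := congrFun (hsum _ (hgr a ha (blk l))) l
    rw [Finset.sum_apply] at h1
    have h2 : pj blk (blk l) a l = a l := by simp [pj]
    rw [← h2, ← h1, Finset.sum_apply]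
    refine Finset.sum_congr rfl fun i _ => ?_
    simp only [pj, Pi.smul_apply, smul_eq_mul]
    by_cases h : blk i = blk l
    · rw [if_pos h, if_pos h.symm]
    · rw [if_neg h, if_neg (fun h' => h h'.symm), zero_mul, mul_zero]

/-- the absolute values of the leading coefficients -/
theorem log_c {L : Type} [Field L] [Algebra ℂ L] {x : Fin n → L}
    {A : (Fin n → ℤ) →+ (Fin t → ℤ)} {M : Matrix (Fin t) (Fin t) ℤ} {c : (Fin n → ℤ) → ℂ}
    (h : LPr x A M c) (k : Fin n → Fin n → ℤ) (hk : ∀ i, A (k i) = 0) (a : Fin n → ℤ) :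
    Real.log ‖c (∑ i, a i • k i)‖ = ∑ i, (a i : ℝ) * Real.log ‖c (k i)‖ := by
  let φ : A.ker →+ ℝ := AddMonoidHom.mk' (fun b => Real.log ‖c b‖) (by
    rintro ⟨b, hb⟩ ⟨b', hb'⟩
    have h1 : c (b + b') = c b * c b' := h.2.2.1 b b' hb hb'
    show Real.log ‖c (b + b')‖ = Real.log ‖c b‖ + Real.log ‖c b'‖
    rw [h1, norm_mul, Real.log_mul (norm_ne_zero_iff.2 (h.2.1 b hb))
      (norm_ne_zero_iff.2 (h.2.1 b' hb'))])
  have h1 : φ (∑ i, a i • ⟨k i, hk i⟩) = ∑ i, (a i : ℝ) * Real.log ‖c (k i)‖ := by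
    rw [map_sum]
    refine Finset.sum_congr rfl fun i _ => ?_
    rw [map_zsmul, zsmul_eq_mul]
    rfl
  rw [← h1]
  show _ = Real.log ‖c ((∑ i, a i • (⟨k i, hk i⟩ : A.ker) : A.ker) : Fin n → ℤ)‖
  rw [AddSubgroup.val_finsetSum]
  rfl

/-- bounded sequences converge along ultrafilters -/
theorem exists_lim (𝓤 : Ultrafilter ℕ) (f : ℕ → ℝ) (C : ℝ)
    (h : ∀ᶠ ν in (𝓤 : Filter ℕ), |f ν| ≤ C) : ∃ μ, Tendsto f 𝓤 (𝓝 μ) := by
  have h1 : Set.Icc (-C) C ∈ 𝓤.map f := by
    rw [Ultrafilter.mem_map]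
    refine Filter.mem_of_superset h fun ν hν => ?_
    exact abs_le.1 hν
  obtain ⟨μ, _, hμ⟩ := isCompact_Icc.ultrafilter_le_nhds' (𝓤.map f) h1
  exact ⟨μ, hμ⟩

end Pool.Agent.ZP.Glue
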